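import Mathlib.Logic.Relation
import Mathlib.Data.Fintype.Powerset
import Mathlib.Data.Fintype.Prod
import Mathlib.Tactic

/-!
# Arc bijections preserving 4-circuits do not determine a strong tournament (MP_ebd9af_co)
-/

namespace Pool.Agent.Results.MP_ebd9af_co.FourCircuitsOnly

/-- A tournament on `V`: no loops, and exactly one arc between any two distinct vertices. -/
structure Tournament (V : Type) where
  /-- `arc u v` means that there is an arc from `u` to `v`. -/
  arc : V → V → Prop
  loopless : ∀ v, ¬ arc v v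
  total : ∀ u v, u ≠ v → (arc u v ↔ ¬ arc v u)

/-- The type of arcs of a tournament. -/
abbrev Arcs {V : Type} (T : Tournament V) : Type := {p : V × V // T.arc p.1 p.2}

/-- A tournament is strong if there is a directed path from every vertex to every vertex. -/
def Strong {V : Type} (T : Tournament V) : Prop :=
  ∀ u v, Relation.ReflTransGen T.arc u v

/-- `C` is (the arc set of) a 4-circuit of `T`: there are four distinct vertices `a, b, c, d` with
`a → b → c → d → a`, and `C` consists of exactly these four arcs. -/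
def IsFourCircuit {V : Type} (T : Tournament V) (C : Finset (Arcs T)) : Prop :=
  ∃ a b c d : V, (a ≠ b ∧ a ≠ c ∧ a ≠ d ∧ b ≠ c ∧ b ≠ d ∧ c ≠ d) ∧
    (T.arc a b ∧ T.arc b c ∧ T.arc c d ∧ T.arc d a) ∧
    ∀ x : Arcs T, x ∈ C ↔ (x.1 = (a, b) ∨ x.1 = (b, c) ∨ x.1 = (c, d) ∨ x.1 = (d, a))

/-- Isomorphism of tournaments. -/
def Isomorphic {V W : Type} (S : Tournament V) (T : Tournament W) : Prop :=
  ∃ e : V ≃ W, ∀ u v, S.arc u v ↔ T.arc (e u) (e v)

/-- The converse tournament: all arcs are reversed. -/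
def converse {V : Type} (T : Tournament V) : Tournament V where
  arc u v := T.arc v u
  loopless := T.loopless
  total u v h := T.total v u h.symm

/-- The list of arcs of the first tournament. -/
def L₁ : List (Fin 5 × Fin 5) :=
  [(0, 2), (0, 4), (1, 0), (2, 1), (3, 0), (3, 1), (3, 2), (4, 1), (4, 2), (4, 3)]

/-- The list of arcs of the second tournament (the regular one), in the order given by the
bijection. -/
def L₂ : List (Fin 5 × Fin 5) :=
  [(0, 2), (0, 1), (4, 0), (1, 2), (2, 3), (1, 3), (3, 0), (4, 1), (2, 4), (3, 4)]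

/-- First tournament. -/
def T₁ : Tournament (Fin 5) where
  arc u v := (u, v) ∈ L₁
  loopless := by decide
  total := by decide

/-- Second tournament. -/
def T₂ : Tournament (Fin 5) where
  arc u v := (u, v) ∈ L₂
  loopless := by decide
  total := by decide

instance (u v : Fin 5) : Decidable (T₁.arc u v) := inferInstanceAs (Decidable ((u, v) ∈ L₁))
instance (u v : Fin 5) : Decidable (T₂.arc u v) := inferInstanceAs (Decidable ((u, v) ∈ L₂))

/-- The arc map. -/
def f (x : Arcs T₁) : Arcs T₂ :=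
  ⟨L₂.getD (L₁.idxOf x.1) (0, 2), by
    revert x
    decide⟩

theorem f_bij : Function.Bijective f := by
  constructor
  · decide
  · decide

/-- Auxiliary: `a → b → c → d → a` is a 4-circuit of `T₁`. -/
def C₁ (a b c d : Fin 5) : Prop :=
  (a ≠ b ∧ a ≠ c ∧ a ≠ d ∧ b ≠ c ∧ b ≠ d ∧ c ≠ d) ∧
    (T₁.arc a b ∧ T₁.arc b c ∧ T₁.arc c d ∧ T₁.arc d a)

/-- Auxiliary: `a → b → c → d → a` is a 4-circuit of `T₂`. -/
def C₂ (a b c d : Fin 5) : Prop :=
  (a ≠ b ∧ a ≠ c ∧ a ≠ d ∧ b ≠ c ∧ b ≠ d ∧ c ≠ d) ∧
    (T₂.arc a b ∧ T₂.arc b c ∧ T₂.arc c d ∧ T₂.arc d a)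

/-- Auxiliary: `f` maps the arcs of the first circuit to those of the second. -/
def Im (a b c d a' b' c' d' : Fin 5) : Prop :=
  ∀ x : Arcs T₁, (x.1 = (a, b) ∨ x.1 = (b, c) ∨ x.1 = (c, d) ∨ x.1 = (d, a)) ↔
    ((f x).1 = (a', b') ∨ (f x).1 = (b', c') ∨ (f x).1 = (c', d') ∨ (f x).1 = (d', a'))

instance (a b c d : Fin 5) : Decidable (C₁ a b c d) := by unfold C₁; infer_instance
instance (a b c d : Fin 5) : Decidable (C₂ a b c d) := by unfold C₂; infer_instance
instance (a b c d a' b' c' d' : Fin 5) : Decidable (Im a b c d a' b' c' d') := by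
  unfold Im; infer_instance

theorem f_circuit : ∀ a b c d : Fin 5, C₁ a b c d →
    ∃ a' b' c' d' : Fin 5, C₂ a' b' c' d' ∧ Im a b c d a' b' c' d' := by
  decide +kernel

/-- Outdegrees in `T₁` are not constant while in `T₂` they all are 2. -/
theorem out₂ : ∀ v : Fin 5, (Finset.univ.filter (fun w => T₂.arc v w)).card = 2 := by decide

theorem in₂ : ∀ v : Fin 5, (Finset.univ.filter (fun w => T₂.arc w v)).card = 2 := by decide

theorem strong₁ : Strong T₁ := by
  have key : ∀ u v : Fin 5, ∃ a b : Fin 5, (T₁.arc u a ∨ u = a) ∧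
      (T₁.arc a b ∨ a = b) ∧ (∃ c d : Fin 5, (T₁.arc b c ∨ b = c) ∧ (T₁.arc c d ∨ c = d) ∧
        (T₁.arc d v ∨ d = v)) := by
    decide +kernel
  intro u v
  obtain ⟨a, b, h1, h2, c, d, h3, h4, h5⟩ := key u v
  have step : ∀ {x y : Fin 5}, (T₁.arc x y ∨ x = y) → Relation.ReflTransGen T₁.arc x y := by
    rintro x y (h | rfl)
    · exact Relation.ReflTransGen.single h
    · exact Relation.ReflTransGen.refl
  exact (step h1).trans ((step h2).trans ((step h3).trans ((step h4).trans (step h5))))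

theorem strong₂ : Strong T₂ := by
  have key : ∀ u v : Fin 5, ∃ a b : Fin 5, (T₂.arc u a ∨ u = a) ∧
      (T₂.arc a b ∨ a = b) ∧ (T₂.arc b v ∨ b = v) := by
    decide +kernel
  intro u v
  obtain ⟨a, b, h1, h2, h3⟩ := key u v
  have step : ∀ {x y : Fin 5}, (T₂.arc x y ∨ x = y) → Relation.ReflTransGen T₂.arc x y := by
    rintro x y (h | rfl)
    · exact Relation.ReflTransGen.single h
    · exact Relation.ReflTransGen.refl
  exact (step h1).trans ((step h2).trans (step h3))

theorem result : ∃ (T₁ T₂ : Tournament (Fin 5)) (φ : Arcs T₁ ≃ Arcs T₂),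
    Strong T₁ ∧ Strong T₂ ∧
    (∀ C : Finset (Arcs T₁), IsFourCircuit T₁ C → IsFourCircuit T₂ (C.map φ.toEmbedding)) ∧
    ¬ Isomorphic T₁ T₂ ∧ ¬ Isomorphic T₁ (converse T₂) := by
  refine ⟨T₁, T₂, Equiv.ofBijective f f_bij, strong₁, strong₂, ?_, ?_, ?_⟩
  · rintro C ⟨a, b, c, d, hne, harc, hC⟩
    obtain ⟨a', b', c', d', ⟨hne', harc'⟩, h⟩ := f_circuit a b c d ⟨hne, harc⟩
    refine ⟨a', b', c', d', hne', harc', fun y => ?_⟩
    obtain ⟨x, rfl⟩ := f_bij.2 y
    rw [Finset.mem_map]
    constructor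
    · rintro ⟨z, hz, hzx⟩
      have : z = x := f_bij.1 hzx
      subst this
      exact (h z).1 ((hC z).1 hz)
    · intro hx
      exact ⟨x, (hC x).2 ((h x).2 hx), rfl⟩
  · rintro ⟨e, he⟩
    have h1 : (Finset.univ.filter (fun w => T₁.arc 1 w)).card = 1 := by decide
    have h2 := out₂ (e 1)
    have : (Finset.univ.filter (fun w => T₂.arc (e 1) w)) =
        (Finset.univ.filter (fun w => T₁.arc 1 w)).map e.toEmbedding := by
      ext w
      simp only [Finset.mem_filter, Finset.mem_univ, true_and, Finset.mem_map,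
        Equiv.coe_toEmbedding]
      constructor
      · intro hw
        exact ⟨e.symm w, (he _ _).2 (by simpa using hw), by simp⟩
      · rintro ⟨z, hz, rfl⟩
        exact (he _ _).1 hz
    rw [this, Finset.card_map, h1] at h2
    omega
  · rintro ⟨e, he⟩
    have h1 : (Finset.univ.filter (fun w => T₁.arc 1 w)).card = 1 := by decide
    have h2 := in₂ (e 1)
    have : (Finset.univ.filter (fun w => T₂.arc w (e 1))) =
        (Finset.univ.filter (fun w => T₁.arc 1 w)).map e.toEmbedding := by
      ext w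
      simp only [Finset.mem_filter, Finset.mem_univ, true_and, Finset.mem_map,
        Equiv.coe_toEmbedding]
      constructor
      · intro hw
        exact ⟨e.symm w, (he _ _).2 (by simpa [converse] using hw), by simp⟩
      · rintro ⟨z, hz, rfl⟩
        exact (he _ _).1 hz
    rw [this, Finset.card_map, h1] at h2
    omega

end Pool.Agent.Results.MP_ebd9af_co.FourCircuitsOnly
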